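import Pool.Agent.Helper11.ProP2.Width

/-! Packet E, second part: definable open normal subgroups. -/

set_option autoImplicit false

namespace Pool.Agent.Helper11.ProP2

open Pool.Agent.Helper85.ProP Pool.Agent.Helper30.ProP Function
open scoped commutatorElement

universe u

/-- a finite `p`-group in which every element is a `p`-th power times an element of the
commutator subgroup is trivial -/
theorem trivial_of_frat {P : Type*} [Group P] [Finite P] (p : ℕ) [Fact p.Prime]
    (hP : IsPGroup p P) (h : ∀ g : P, ∃ a : P, ∃ c ∈ commutator P, g = a ^ p * c) :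
    Subsingleton P := by
  by_contra hns
  have hnt : Nontrivial P := not_subsingleton_iff_nontrivial.1 hns
  have hnil : Group.IsNilpotent P := hP.isNilpotent
  have hlt : commutator P < ⊤ := Group.IsSolvable.commutator_lt_top_of_nontrivial (G := P)
  have hab : Finite (Abelianization P) := inferInstance
  have hsurj : Surjective (powMonoidHom p : Abelianization P →* Abelianization P) := by
    intro q
    obtain ⟨g, rfl⟩ := QuotientGroup.mk_surjective q
    obtain ⟨a, c, hc, rfl⟩ := h g
    refine ⟨(QuotientGroup.mk a : P ⧸ commutator P), ?_⟩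
    have h1 : ((a ^ p * c : P) : P ⧸ commutator P) = (a ^ p : P) := by
      rw [QuotientGroup.mk_mul, (QuotientGroup.eq_one_iff c).2 hc, mul_one]
    exact h1.symm
  have hinj : Injective (powMonoidHom p : Abelianization P →* Abelianization P) :=
    Finite.injective_iff_surjective.2 hsurj
  have hntq : Nontrivial (Abelianization P) := by
    obtain ⟨g, _, hg⟩ := SetLike.exists_of_lt hlt
    refine ⟨(g : P ⧸ commutator P), 1, ?_⟩
    intro h1
    exact hg ((QuotientGroup.eq_one_iff g).1 h1)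
  have hPq : IsPGroup p (Abelianization P) := hP.to_quotient _
  obtain ⟨n, hn0, hn⟩ := (hPq.nontrivial_iff_card).1 hntq
  have hdvd : p ∣ Nat.card (Abelianization P) := by rw [hn]; exact dvd_pow_self p hn0.ne'
  obtain ⟨q, hq⟩ := exists_prime_orderOf_dvd_card' p hdvd
  have h1 : (powMonoidHom p : Abelianization P →* Abelianization P) q =
      (powMonoidHom p : Abelianization P →* Abelianization P) 1 := by
    rw [map_one]
    show q ^ p = 1
    rw [← hq, pow_orderOf_eq_one]
  have h2 := hinj h1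
  rw [h2, orderOf_one] at hq
  exact (Fact.out : p.Prime).one_lt.ne hq

/-- the subgroup `H^p [H, H]` of a finitely generated pro-`p` group -/
theorem frat_open (p : ℕ) [Fact p.Prime] (H : Type u) [Group H] [TopologicalSpace H]
    [IsTopologicalGroup H] [CompactSpace H] [T2Space H] [TotallyDisconnectedSpace H]
    (hpp : PP p H) (hfg : FGG H) :
    ∃ (d : ℕ) (F : Subgroup H), IsOpen (F : Set H) ∧
      ∀ g, g ∈ F ↔ ∃ (a : H) (b c : Fin d → H),
        g = a ^ p * (List.ofFn fun i => cm (b i) (c i)).prod := by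
  classical
  obtain ⟨S, hS⟩ := hfg
  set x : Fin S.card → H := fun i => (S.equivFin.symm i : H) with hx
  have hrange : Set.range x = (S : Set H) := by
    ext g
    constructor
    · rintro ⟨i, rfl⟩
      exact (S.equivFin.symm i).2
    · intro hg
      exact ⟨S.equivFin ⟨g, hg⟩, by simp [hx]⟩
  have hxt : (Subgroup.closure (Set.range x)).topologicalClosure = ⊤ := by rw [hrange]; exact hS
  set C := (commutator H).topologicalClosure with hC
  have hCn : C.Normal := Subgroup.is_normal_topologicalClosure _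
  have hCc : IsClosed (C : Set H) := Subgroup.isClosed_topologicalClosure _
  have hCle : commutator H ≤ C := Subgroup.le_topologicalClosure _
  let ci : CommGroup (H ⧸ C) :=
    { (inferInstance : Group (H ⧸ C)) with
      mul_comm := by
        intro a b
        obtain ⟨a, rfl⟩ := QuotientGroup.mk_surjective a
        obtain ⟨b, rfl⟩ := QuotientGroup.mk_surjective b
        have h1 : ⁅a, b⁆ ∈ C := hCle (Subgroup.commutator_mem_commutator (Subgroup.mem_top _)
          (Subgroup.mem_top _))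
        have h2 : ((⁅a, b⁆ : H) : H ⧸ C) = 1 := (QuotientGroup.eq_one_iff _).2 h1
        have h3 : ⁅(a : H ⧸ C), (b : H ⧸ C)⁆ = 1 := h2
        exact commutatorElement_eq_one_iff_mul_comm.1 h3 }
  set F : Subgroup H := ((powMonoidHom p : (H ⧸ C) →* (H ⧸ C)).range).comap (QuotientGroup.mk' C)
    with hF
  have hmemF : ∀ g, g ∈ F ↔ ∃ a : H, ∃ c ∈ C, g = a ^ p * c := by
    intro g
    rw [hF, Subgroup.mem_comap, MonoidHom.mem_range]
    constructor
    · rintro ⟨q, hq⟩
      obtain ⟨a, rfl⟩ := QuotientGroup.mk_surjective q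
      have h1 : ((a ^ p : H) : H ⧸ C) = (g : H ⧸ C) := hq
      exact ⟨a, (a ^ p)⁻¹ * g, QuotientGroup.eq.1 h1, by group⟩
    · rintro ⟨a, c, hc, rfl⟩
      refine ⟨(a : H ⧸ C), ?_⟩
      have h1 : ((a ^ p * c : H) : H ⧸ C) = (a ^ p : H) := by
        rw [QuotientGroup.mk_mul, (QuotientGroup.eq_one_iff c).2 hc, mul_one]
      exact h1.symm
  have hFn : F.Normal := Subgroup.Normal.comap inferInstance _
  have hCF : C ≤ F := fun c hc => (hmemF c).2 ⟨1, c, hc, by simp⟩
  have hFc : IsClosed (F : Set H) := by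
    have h1 : (F : Set H) = (fun q : H × H => q.1 ^ p * q.2) '' (Set.univ ×ˢ (C : Set H)) := by
      ext g
      rw [SetLike.mem_coe, hmemF]
      constructor
      · rintro ⟨a, c, hc, rfl⟩
        exact ⟨(a, c), ⟨Set.mem_univ _, hc⟩, rfl⟩
      · rintro ⟨⟨a, c⟩, ⟨-, hc⟩, rfl⟩
        exact ⟨a, c, hc, rfl⟩
    rw [h1]
    refine IsCompact.isClosed (IsCompact.image (isCompact_univ.prod hCc.isCompact) ?_)
    fun_prop
  -- finite index
  let cq : CommGroup (H ⧸ F) :=
    { (inferInstance : Group (H ⧸ F)) with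
      mul_comm := by
        intro a b
        obtain ⟨a, rfl⟩ := QuotientGroup.mk_surjective a
        obtain ⟨b, rfl⟩ := QuotientGroup.mk_surjective b
        have h1 : ⁅a, b⁆ ∈ F := hCF (hCle (Subgroup.commutator_mem_commutator
          (Subgroup.mem_top _) (Subgroup.mem_top _)))
        have h2 : ((⁅a, b⁆ : H) : H ⧸ F) = 1 := (QuotientGroup.eq_one_iff _).2 h1
        have h3 : ⁅(a : H ⧸ F), (b : H ⧸ F)⁆ = 1 := h2
        exact commutatorElement_eq_one_iff_mul_comm.1 h3 }
  have hexp : ∀ q : H ⧸ F, q ^ p = 1 := by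
    intro q
    obtain ⟨g, rfl⟩ := QuotientGroup.mk_surjective q
    exact (QuotientGroup.eq_one_iff (g ^ p)).2 ((hmemF _).2 ⟨g, 1, C.one_mem, by simp⟩)
  set K : Subgroup (H ⧸ F) := Subgroup.closure (Set.range fun i => ((x i : H) : H ⧸ F)) with hK
  have hKfin : Finite K := by
    have hfgK : Group.FG K := (Group.fg_iff_subgroup_fg K).2
      ((Subgroup.fg_iff K).2 ⟨_, rfl, Set.finite_range _⟩)
    refine CommGroup.finite_of_fg_isMulTorsion K ?_
    intro k
    rw [isOfFinOrder_iff_pow_eq_one]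
    exact ⟨p, (Fact.out : p.Prime).pos, Subtype.ext (hexp k)⟩
  have hT2 : T2Space (H ⧸ F) := by
    have : IsClosed (F : Set H) := hFc
    infer_instance
  have hKt : K.comap (QuotientGroup.mk' F) = ⊤ := by
    rw [eq_top_iff, ← hxt]
    refine Subgroup.topologicalClosure_minimal _ ?_ ?_
    · rw [Subgroup.closure_le]
      rintro _ ⟨i, rfl⟩
      exact Subgroup.subset_closure ⟨i, rfl⟩
    · have h1 : (K : Set (H ⧸ F)).Finite := Set.toFinite _
      exact h1.isClosed.preimage QuotientGroup.continuous_mk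
  have hfinq : Finite (H ⧸ F) := by
    have h1 : K = ⊤ := by
      rw [eq_top_iff]
      intro q _
      obtain ⟨g, rfl⟩ := QuotientGroup.mk_surjective q
      have : g ∈ K.comap (QuotientGroup.mk' F) := by rw [hKt]; exact Subgroup.mem_top g
      exact this
    rw [h1] at hKfin
    exact Finite.of_equiv _ (Subgroup.topEquiv (G := H ⧸ F)).toEquiv
  have hFi : F.FiniteIndex := Subgroup.finiteIndex_of_finite_quotient
  refine ⟨S.card, F, Subgroup.isOpen_of_isClosed_of_finiteIndex F hFc, fun g => ?_⟩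
  rw [hmemF]
  constructor
  · rintro ⟨a, c, hc, rfl⟩
    obtain ⟨y, hy⟩ := stmtWidth p H hpp S.card x hxt c hc
    exact ⟨a, x, y, by rw [hy]⟩
  · rintro ⟨a, b, c, rfl⟩
    refine ⟨a, _, ?_, rfl⟩
    refine hCle (prod_mem_sub _ _ fun i => ?_)
    have h1 : cm (b i) (c i) = ⁅b i, c i⁆ := by rw [commutatorElement_def]; rfl
    rw [h1]
    exact Subgroup.commutator_mem_commutator (Subgroup.mem_top _) (Subgroup.mem_top _)

section logic

variable {G : Type*} [Group G]

theorem tf_pow {n : ℕ} {s : (ℕ → G) → G} (hs : TF n s) (k : ℕ) : TF n (fun v => s v ^ k) := by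
  induction k with
  | zero => simpa using TF.one n
  | succ k ih =>
    have := ih.mul hs
    simpa [pow_succ] using this

theorem tf_cm {n : ℕ} {s t : (ℕ → G) → G} (hs : TF n s) (ht : TF n t) :
    TF n (fun v => cm (s v) (t v)) :=
  ((hs.mul ht).mul hs.inv).mul ht.inv

/-- `g` is `h` times a product of `d` commutators of elements of `W` -/
def Pd (W : Subgroup G) (d : ℕ) (g h : G) : Prop :=
  ∃ b c : Fin d → G, (∀ i, b i ∈ W ∧ c i ∈ W) ∧ g = h * (List.ofFn fun i => cm (b i) (c i)).prod

theorem pd_zero (W : Subgroup G) (g h : G) : Pd W 0 g h ↔ g = h := by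
  unfold Pd
  constructor
  · rintro ⟨b, c, -, rfl⟩
    simp
  · intro hg
    exact ⟨fun i => i.elim0, fun i => i.elim0, fun i => i.elim0, by simp [hg]⟩

theorem pd_succ (W : Subgroup G) (d : ℕ) (g h : G) :
    Pd W (d + 1) g h ↔ ∃ z, z ∈ W ∧ ∃ z', z' ∈ W ∧ Pd W d g (h * cm z z') := by
  unfold Pd
  constructor
  · rintro ⟨b, c, hbc, rfl⟩
    refine ⟨b 0, (hbc 0).1, c 0, (hbc 0).2, fun i => b i.succ, fun i => c i.succ,
      fun i => hbc i.succ, ?_⟩
    rw [List.ofFn_succ, List.prod_cons, mul_assoc]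
  · rintro ⟨z, hz, z', hz', b, c, hbc, rfl⟩
    refine ⟨Fin.cons z b, Fin.cons z' c, ?_, ?_⟩
    · intro i
      refine Fin.cases ?_ (fun k => ?_) i
      · exact ⟨hz, hz'⟩
      · exact hbc k
    · rw [List.ofFn_succ, List.prod_cons, mul_assoc]
      rfl

theorem df_pd {W : Subgroup G} (hW : D1 0 (fun _ : ℕ → G => (· ∈ W))) (d : ℕ) :
    ∀ (n : ℕ) (s t : (ℕ → G) → G), TF n s → TF n t → DF n (fun v => Pd W d (s v) (t v)) := by
  induction d with
  | zero =>
    intro n s t hs ht
    exact (DF.eq hs ht).of_iff fun v => (pd_zero W _ _).symm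
  | succ d ih =>
    intro n s t hs ht
    refine DF.of_iff (P := fun v => ∃ z, z ∈ W ∧ ∃ z', z' ∈ W ∧
      Pd W d (s v) (t v * cm z z')) ?_ fun v => (pd_succ W d _ _).symm
    refine DF.ex (R := fun v z => z ∈ W ∧ ∃ z', z' ∈ W ∧ Pd W d (s v) (t v * cm z z')) ?_ ?_
    · intro v z w
      simp only [hs.upd le_rfl, ht.upd le_rfl]
    · refine (hW.df (n + 1) (Nat.zero_le _) _ (TF.last n)).and ?_
      refine DF.ex (R := fun v z' => z' ∈ W ∧ Pd W d (s v) (t v * cm (v n) z')) ?_ ?_
      · intro v z w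
        have h1 : (update v (n + 1) z) n = v n := update_of_ne (by omega) _ _
        simp only [hs.upd (Nat.le_succ n), ht.upd (Nat.le_succ n), h1]
      · refine (hW.df (n + 2) (Nat.zero_le _) _ (TF.last (n + 1))).and ?_
        exact ih (n + 2) s (fun v => t v * cm (v n) (v (n + 1))) (hs.mono (by omega))
          ((ht.mono (by omega)).mul (tf_cm (TF.var (by omega)) (TF.var (by omega))))

end logic

theorem map_ker_bot {G : Type*} [Group G] (O W : Subgroup G) [O.Normal]
    (h : W.map (QuotientGroup.mk' O) = ⊥) : W ≤ O := by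
  rw [Subgroup.map_eq_bot_iff, QuotientGroup.ker_mk'] at h
  exact h

/-- one step -/
theorem frat_step (p : ℕ) [Fact p.Prime] (G : Type u) [Group G] [TopologicalSpace G]
    [IsTopologicalGroup G] [CompactSpace G] [T2Space G] [TotallyDisconnectedSpace G]
    (hpp : PP p G) (hfg : FGG G) (O : Subgroup G) [O.Normal] (hO : IsOpen (O : Set G))
    (W : Subgroup G) (hWn : W.Normal) (hWo : IsOpen (W : Set G))
    (hWd : D1 0 (fun _ : ℕ → G => (· ∈ W))) (hne : W.map (QuotientGroup.mk' O) ≠ ⊥) :
    ∃ W' : Subgroup G, W'.Normal ∧ IsOpen (W' : Set G) ∧ D1 0 (fun _ : ℕ → G => (· ∈ W')) ∧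
      Nat.card (W'.map (QuotientGroup.mk' O)) < Nat.card (W.map (QuotientGroup.mk' O)) := by
  obtain ⟨hWpp, hWfg, -⟩ := Pool.Agent.Helper51.ProP2.stmtOpen p G hpp W hWo hWn
  have hWcl : IsClosed (W : Set G) := Subgroup.isClosed_of_isOpen W hWo
  have hWcomp : CompactSpace W := isCompact_iff_compactSpace.1 hWcl.isCompact
  obtain ⟨d, F, hFo, hF⟩ := frat_open p W hWpp (hWfg hfg)
  have hmem : ∀ g, g ∈ F.map W.subtype ↔ ∃ a, a ∈ W ∧ Pd W d g (a ^ p) := by
    intro g
    rw [Subgroup.mem_map]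
    constructor
    · rintro ⟨w, hw, rfl⟩
      obtain ⟨a, b, c, rfl⟩ := (hF w).1 hw
      refine ⟨a, a.2, fun i => b i, fun i => c i, fun i => ⟨(b i).2, (c i).2⟩, ?_⟩
      rw [map_mul, map_pow, map_list_prod, List.map_ofFn]
      rfl
    · rintro ⟨a, ha, b, c, hbc, rfl⟩
      refine ⟨(⟨a, ha⟩ : W) ^ p * (List.ofFn fun i =>
        cm (⟨b i, (hbc i).1⟩ : W) (⟨c i, (hbc i).2⟩ : W)).prod, ?_, ?_⟩
      · exact (hF _).2 ⟨_, _, _, rfl⟩
      · rw [map_mul, map_pow, map_list_prod, List.map_ofFn]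
        rfl
  have hle : F.map W.subtype ≤ W := Subgroup.map_subtype_le F
  refine ⟨F.map W.subtype, ?_, ?_, ?_, ?_⟩
  · constructor
    intro n hn g
    rw [hmem] at hn ⊢
    obtain ⟨a, ha, b, c, hbc, rfl⟩ := hn
    refine ⟨g * a * g⁻¹, hWn.conj_mem a ha g, fun i => g * b i * g⁻¹, fun i => g * c i * g⁻¹,
      fun i => ⟨hWn.conj_mem _ (hbc i).1 g, hWn.conj_mem _ (hbc i).2 g⟩, ?_⟩
    have h1 : ∀ y : G, g * y * g⁻¹ = MulAut.conj g y := fun y => rfl
    simp only [h1]
    rw [map_mul, map_pow, map_list_prod, List.map_ofFn]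
    congr 3
    funext i
    simp [cm]
    group
  · have h6 : ((F.map W.subtype : Subgroup G) : Set G) = Subtype.val '' (F : Set W) := rfl
    rw [h6]
    exact hWo.isOpenEmbedding_subtypeVal.isOpenMap _ hFo
  · constructor
    · intro v n z _
      rfl
    · intro n _ s hs
      refine DF.of_iff (P := fun v => ∃ a, a ∈ W ∧ Pd W d (s v) (a ^ p)) ?_
        fun v => (hmem _).symm
      refine DF.ex (R := fun v a => a ∈ W ∧ Pd W d (s v) (a ^ p)) ?_ ?_
      · intro v z w
        simp only [hs.upd le_rfl]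
      · refine (hWd.df (n + 1) (Nat.zero_le _) _ (TF.last n)).and ?_
        exact df_pd hWd d (n + 1) s (fun v => v n ^ p) hs.succ (tf_pow (TF.last n) p)
  · -- the image decreases
    obtain ⟨n, hn⟩ := hpp O inferInstance hO
    have hcard : Nat.card (G ⧸ O) = p ^ n := hn
    have hfin : Finite (G ⧸ O) := Nat.finite_of_card_ne_zero (by
      rw [hcard]; exact pow_ne_zero _ (Fact.out : p.Prime).ne_zero)
    have hpg : IsPGroup p (G ⧸ O) := IsPGroup.of_card hcard
    have hmle : (F.map W.subtype).map (QuotientGroup.mk' O) ≤ W.map (QuotientGroup.mk' O) :=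
      Subgroup.map_mono hle
    refine lt_of_le_of_ne (Subgroup.card_le_of_le hmle) ?_
    intro heq
    have heq' : (F.map W.subtype).map (QuotientGroup.mk' O) = W.map (QuotientGroup.mk' O) :=
      Subgroup.eq_of_le_of_card_ge hmle heq.ge
    apply hne
    have hsub : Subsingleton (W.map (QuotientGroup.mk' O)) := by
      refine trivial_of_frat p (hpg.to_subgroup _) ?_
      rintro ⟨g, hg⟩
      have hg' := hg
      rw [← heq'] at hg'
      obtain ⟨w, hw, hwg⟩ := hg'
      obtain ⟨a, ha, b, c, hbc, rfl⟩ := (hmem w).1 hw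
      have hin : ∀ y ∈ W, QuotientGroup.mk' O y ∈ W.map (QuotientGroup.mk' O) :=
        fun y hy => Subgroup.mem_map_of_mem _ hy
      refine ⟨⟨_, hin a ha⟩, (List.ofFn fun i =>
        cm (⟨_, hin _ (hbc i).1⟩ : W.map (QuotientGroup.mk' O)) ⟨_, hin _ (hbc i).2⟩).prod, ?_, ?_⟩
      · refine prod_mem_sub _ _ fun i => ?_
        exact Subgroup.commutator_mem_commutator (Subgroup.mem_top _) (Subgroup.mem_top _)
      · apply Subtype.ext
        show g = _
        rw [← hwg, map_mul, map_pow, map_list_prod, List.map_ofFn, Subgroup.coe_mul,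
          Subgroup.coe_pow, Subgroup.val_list_prod, List.map_ofFn]
        rfl
    exact Subgroup.eq_bot_of_subsingleton _

theorem stmtFrat : StmtFrat.{u} := by
  intro p _ G _ _ _ _ _ _ hpp hfg U hU
  obtain ⟨O, hO⟩ := ProfiniteGrp.exist_openNormalSubgroup_sub_open_nhds_of_one hU U.one_mem
  have hOn : O.toSubgroup.Normal := O.isNormal'
  have key : ∀ m : ℕ, ∀ W : Subgroup G, W.Normal → IsOpen (W : Set G) →
      D1 0 (fun _ : ℕ → G => (· ∈ W)) →
      Nat.card (W.map (QuotientGroup.mk' O.toSubgroup)) ≤ m →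
      ∃ W' : Subgroup G, W'.Normal ∧ IsOpen (W' : Set G) ∧
        W' ≤ O.toSubgroup ∧ D1 0 (fun _ : ℕ → G => (· ∈ W')) := by
    intro m
    induction m with
    | zero =>
      intro W hWn hWo hWd hm
      obtain ⟨n, hn⟩ := hpp O.toSubgroup O.isNormal' O.isOpen'
      have hcard : Nat.card (G ⧸ O.toSubgroup) = p ^ n := hn
      have hfin : Finite (G ⧸ O.toSubgroup) := Nat.finite_of_card_ne_zero (by
        rw [hcard]; exact pow_ne_zero _ (Fact.out : p.Prime).ne_zero)
      have : 0 < Nat.card (W.map (QuotientGroup.mk' O.toSubgroup)) := Nat.card_pos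
      omega
    | succ m ih =>
      intro W hWn hWo hWd hm
      by_cases hne : W.map (QuotientGroup.mk' O.toSubgroup) = ⊥
      · exact ⟨W, hWn, hWo, map_ker_bot _ _ hne, hWd⟩
      · obtain ⟨W', h1, h2, h3, h4⟩ := frat_step p G hpp hfg O.toSubgroup O.isOpen' W hWn hWo
          hWd hne
        exact ih W' h1 h2 h3 (by omega)
  obtain ⟨W, h1, h2, h3, h4⟩ := key _ ⊤ inferInstance isOpen_univ ⟨fun _ _ _ _ => rfl,
    fun n _ s _ => DF.true.of_iff fun v => by simp⟩ le_rfl
  exact ⟨W, h1, h2, fun w hw => hO (h3 hw), h4⟩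

end Pool.Agent.Helper11.ProP2
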