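import Pool.Agent.Helper30.ProP.Goals
import Pool.Agent.Helper51.ProP2.Open

/-! Packet E (commutator width, definable open subgroups) of the nilpotent-by-abelian case of
MP_ac806c_lc. -/

set_option autoImplicit false

namespace Pool.Agent.Helper11.ProP2

open Pool.Agent.Helper85.ProP Pool.Agent.Helper30.ProP
open scoped commutatorElement

universe u

section alg

variable {G : Type*} [Group G]

theorem cm_one (a : G) : cm a 1 = 1 := by simp [cm]

theorem one_cm (a : G) : cm 1 a = 1 := by simp [cm]

theorem cm_mul_right (a b c : G) : cm a (b * c) = cm a b * (b * cm a c * b⁻¹) := by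
  unfold cm; group

theorem cm_mul_left (a b c : G) : cm (a * b) c = a * cm b c * a⁻¹ * cm a c := by
  unfold cm; group

theorem cm_inv_left (a c : G) : cm a⁻¹ c = a⁻¹ * (cm a c)⁻¹ * a := by
  unfold cm; group

theorem conj_central {z : G} (hz : z ∈ Subgroup.center G) (g : G) : g * z * g⁻¹ = z := by
  rw [Subgroup.mem_center_iff] at hz
  rw [hz g]; group

theorem prod_mul_central {n : ℕ} (a c : Fin n → G) (hc : ∀ i, c i ∈ Subgroup.center G) :
    (List.ofFn fun i => a i * c i).prod = (List.ofFn a).prod * (List.ofFn c).prod := by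
  induction n with
  | zero => simp
  | succ n ih =>
    rw [List.ofFn_succ, List.ofFn_succ, List.ofFn_succ, List.prod_cons, List.prod_cons,
      List.prod_cons, ih (fun i => a i.succ) (fun i => c i.succ) (fun i => hc i.succ)]
    have h := Subgroup.mem_center_iff.1 (hc 0)
    rw [mul_assoc (a 0) (c 0), ← mul_assoc (c 0), ← h, mul_assoc, mul_assoc]

theorem prod_mem_sub {n : ℕ} (c : Fin n → G) (H : Subgroup G) (hc : ∀ i, c i ∈ H) :
    (List.ofFn c).prod ∈ H := by
  refine Subgroup.list_prod_mem _ fun x hx => ?_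
  obtain ⟨i, rfl⟩ := (List.mem_ofFn' _ _).1 hx
  exact hc i

theorem prod_single {n : ℕ} (f : Fin n → G) (i : Fin n) (h : ∀ j, j ≠ i → f j = 1) :
    (List.ofFn f).prod = f i := by
  induction n with
  | zero => exact i.elim0
  | succ n ih =>
    rw [List.ofFn_succ, List.prod_cons]
    refine Fin.cases ?_ (fun k => ?_) i h
    · intro h
      have : (List.ofFn fun j : Fin n => f j.succ) = List.ofFn fun _ : Fin n => (1 : G) := by
        congr 1
        funext j
        exact h _ (Fin.succ_ne_zero j)
      rw [this]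
      simp
    · intro h
      rw [h 0 (Fin.succ_ne_zero k).symm, one_mul]
      refine ih (fun j => f j.succ) k fun j hj => h _ ?_
      intro h'
      exact hj (Fin.succ_injective n h')

theorem central_prod {d : ℕ} (x : Fin d → G) (hx : Subgroup.closure (Set.range x) = ⊤)
    (A : Subgroup G) (hA : ∀ g : G, ∀ a ∈ A, cm g a ∈ Subgroup.center G) {z : G}
    (hz : z ∈ ⁅A, (⊤ : Subgroup G)⁆) :
    ∃ u : Fin d → G, (∀ i, u i ∈ A) ∧ z = (List.ofFn fun i => cm (x i) (u i)).prod := by
  have hmulr : ∀ g : G, ∀ a ∈ A, ∀ b ∈ A, cm g (a * b) = cm g a * cm g b := by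
    intro g a _ b hb
    rw [cm_mul_right, conj_central (hA g b hb)]
  -- the subgroup of products
  let Z : Subgroup G :=
    { carrier := {z | ∃ u : Fin d → G, (∀ i, u i ∈ A) ∧
        z = (List.ofFn fun i => cm (x i) (u i)).prod}
      one_mem' := ⟨fun _ => 1, fun _ => A.one_mem, by simp [cm_one]⟩
      mul_mem' := by
        rintro _ _ ⟨u, hu, rfl⟩ ⟨v, hv, rfl⟩
        refine ⟨fun i => u i * v i, fun i => A.mul_mem (hu i) (hv i), ?_⟩
        rw [← prod_mul_central _ _ fun i => hA (x i) (v i) (hv i)]
        congr 2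
        funext i
        rw [hmulr _ _ (hu i) _ (hv i)]
      inv_mem' := by
        rintro _ ⟨u, hu, rfl⟩
        refine ⟨fun i => (u i)⁻¹, fun i => A.inv_mem (hu i), ?_⟩
        rw [inv_eq_iff_mul_eq_one]
        rw [← prod_mul_central _ _ fun i => hA (x i) _ (A.inv_mem (hu i))]
        have : (fun i => cm (x i) (u i) * cm (x i) (u i)⁻¹) = fun _ => (1 : G) := by
          funext i
          rw [← hmulr _ _ (hu i) _ (A.inv_mem (hu i)), mul_inv_cancel, cm_one]
        rw [this]
        simp }
  have hgen : ∀ w : G, ∀ a ∈ A, cm w a ∈ Z := by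
    intro w
    have hw : w ∈ Subgroup.closure (Set.range x) := by rw [hx]; exact Subgroup.mem_top w
    induction hw using Subgroup.closure_induction with
    | mem w hw =>
      obtain ⟨i, rfl⟩ := hw
      intro a ha
      refine ⟨fun j => if j = i then a else 1, fun j => ?_, ?_⟩
      · dsimp only
        split_ifs
        · exact ha
        · exact A.one_mem
      · rw [prod_single _ i]
        · simp
        · intro j hj
          simp [hj, cm_one]
    | one =>
      intro a _
      rw [one_cm]
      exact Z.one_mem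
    | mul v w _ _ hv hw =>
      intro a ha
      rw [cm_mul_left, conj_central (hA w a ha)]
      exact Z.mul_mem (hw a ha) (hv a ha)
    | inv v _ hv =>
      intro a ha
      have h1 : cm v⁻¹ a = (cm v a)⁻¹ := by
        rw [cm_inv_left]
        have := conj_central ((Subgroup.center G).inv_mem (hA v a ha)) v⁻¹
        rwa [inv_inv] at this
      rw [h1]
      exact Z.inv_mem (hv a ha)
  have hle : ⁅A, (⊤ : Subgroup G)⁆ ≤ Z := by
    rw [Subgroup.commutator_le]
    intro a ha w _
    have h1 : ⁅a, w⁆ = (cm w a)⁻¹ := by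
      rw [commutatorElement_def]; unfold cm; group
    rw [h1]
    exact Z.inv_mem (hgen w a ha)
  exact hle hz

end alg

theorem width_nilp (n : ℕ) : ∀ (P : Type u) [Group P],
    (⊤ : Subgroup P).lowerCentralSeries (n + 1) = ⊥ → ∀ {d : ℕ} (x : Fin d → P),
    Subgroup.closure (Set.range x) = ⊤ → ∀ g ∈ commutator P,
    ∃ y : Fin d → P, g = (List.ofFn fun i => cm (x i) (y i)).prod := by
  induction n with
  | zero =>
    intro P _ hP d x _ g hg
    rw [zero_add, Subgroup.top_lowerCentralSeries_one] at hP
    rw [hP, Subgroup.mem_bot] at hg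
    exact ⟨fun _ => 1, by simp [hg, cm_one]⟩
  | succ n ih =>
    intro P _ hP d x hx g hg
    set N := (⊤ : Subgroup P).lowerCentralSeries (n + 1) with hN
    have hNn : N.Normal := inferInstance
    have hcen : N ≤ Subgroup.center P := by
      intro z hz
      rw [Subgroup.mem_center_iff]
      intro w
      have h1 : ⁅z, w⁆ ∈ (⊤ : Subgroup P).lowerCentralSeries (n + 1 + 1) :=
        Subgroup.commutator_mem_commutator hz (Subgroup.mem_top w)
      rw [hP, Subgroup.mem_bot, commutatorElement_eq_one_iff_mul_comm] at h1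
      exact h1.symm
    have hq : (⊤ : Subgroup (P ⧸ N)).lowerCentralSeries (n + 1) = ⊥ := by
      have h1 := (⊤ : Subgroup P).map_lowerCentralSeries (QuotientGroup.mk' N) (n + 1)
      rw [Subgroup.map_top_of_surjective _ (QuotientGroup.mk'_surjective N)] at h1
      rw [← h1, Subgroup.map_eq_bot_iff, QuotientGroup.ker_mk']
    have hxq : Subgroup.closure (Set.range fun i => ((x i : P) : P ⧸ N)) = ⊤ := by
      have h1 : (Set.range fun i => ((x i : P) : P ⧸ N)) = (QuotientGroup.mk' N) '' Set.range x := by
        rw [← Set.range_comp]; rfl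
      rw [h1, ← MonoidHom.map_closure, hx,
        Subgroup.map_top_of_surjective _ (QuotientGroup.mk'_surjective N)]
    have hgq : (g : P ⧸ N) ∈ commutator (P ⧸ N) := by
      have h1 : (QuotientGroup.mk' N) g ∈ (commutator P).map (QuotientGroup.mk' N) :=
        Subgroup.mem_map_of_mem _ hg
      rw [commutator_def, Subgroup.map_commutator,
        Subgroup.map_top_of_surjective _ (QuotientGroup.mk'_surjective N)] at h1
      exact h1
    obtain ⟨y, hy⟩ := ih (P ⧸ N) hq _ hxq _ hgq
    have hlift : ∀ i, ∃ z : P, (z : P ⧸ N) = y i := fun i => QuotientGroup.mk_surjective (y i)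
    choose z hz using hlift
    have h1 : (g : P ⧸ N) = ((List.ofFn fun i => cm (x i) (z i)).prod : P) := by
      rw [hy]
      have h2 : (((List.ofFn fun i => cm (x i) (z i)).prod : P) : P ⧸ N) =
          QuotientGroup.mk' N (List.ofFn fun i => cm (x i) (z i)).prod := rfl
      rw [h2, map_list_prod, List.map_ofFn]
      congr 2
      funext i
      rw [← hz i]
      rfl
    have h2 : ((List.ofFn fun i => cm (x i) (z i)).prod)⁻¹ * g ∈ N := QuotientGroup.eq.1 h1.symm
    obtain ⟨u, hu, hu2⟩ := central_prod x hx ((⊤ : Subgroup P).lowerCentralSeries n) (by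
      intro w a ha
      refine hcen ?_
      have h3 : ⁅a, w⁆ ∈ N := Subgroup.commutator_mem_commutator ha (Subgroup.mem_top w)
      have h4 : cm w a = ⁅a, w⁆⁻¹ := by rw [commutatorElement_def]; unfold cm; group
      rw [h4]
      exact N.inv_mem h3) (z := ((List.ofFn fun i => cm (x i) (z i)).prod)⁻¹ * g) h2
    have hcu : ∀ i, cm (x i) (u i) ∈ Subgroup.center P := by
      intro i
      refine hcen ?_
      have h3 : ⁅u i, x i⁆ ∈ N := Subgroup.commutator_mem_commutator (hu i) (Subgroup.mem_top _)
      have h4 : cm (x i) (u i) = ⁅u i, x i⁆⁻¹ := by rw [commutatorElement_def]; unfold cm; group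
      rw [h4]
      exact N.inv_mem h3
    refine ⟨fun i => z i * u i, ?_⟩
    have h5 : g = (List.ofFn fun i => cm (x i) (z i)).prod *
        (((List.ofFn fun i => cm (x i) (z i)).prod)⁻¹ * g) := by group
    rw [h5, hu2, ← prod_mul_central _ _ hcu]
    congr 2
    funext i
    rw [cm_mul_right, conj_central (hcu i)]

/-- every finite quotient is generated by the images of topological generators -/
theorem closure_quot {G : Type*} [Group G] [TopologicalSpace G] [IsTopologicalGroup G]
    {d : ℕ} {x : Fin d → G} (hx : (Subgroup.closure (Set.range x)).topologicalClosure = ⊤)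
    (O : Subgroup G) [O.Normal] (hO : IsOpen (O : Set G)) :
    Subgroup.closure (Set.range fun i => ((x i : G) : G ⧸ O)) = ⊤ := by
  set K := Subgroup.closure (Set.range fun i => ((x i : G) : G ⧸ O)) with hK
  have h1 : O ≤ K.comap (QuotientGroup.mk' O) := by
    intro o ho
    rw [Subgroup.mem_comap, QuotientGroup.mk'_apply, (QuotientGroup.eq_one_iff o).2 ho]
    exact K.one_mem
  have h2 : IsOpen ((K.comap (QuotientGroup.mk' O) : Subgroup G) : Set G) :=
    Subgroup.isOpen_mono h1 hO
  have h3 : IsClosed ((K.comap (QuotientGroup.mk' O) : Subgroup G) : Set G) :=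
    Subgroup.isClosed_of_isOpen _ h2
  have h4 : K.comap (QuotientGroup.mk' O) = ⊤ := by
    rw [eq_top_iff, ← hx]
    refine Subgroup.topologicalClosure_minimal _ ?_ h3
    rw [Subgroup.closure_le]
    rintro _ ⟨i, rfl⟩
    exact Subgroup.subset_closure ⟨i, rfl⟩
  rw [eq_top_iff]
  intro q _
  obtain ⟨g, rfl⟩ := QuotientGroup.mk_surjective q
  have : g ∈ K.comap (QuotientGroup.mk' O) := by rw [h4]; exact Subgroup.mem_top g
  exact this

theorem commutator_quot {G : Type*} [Group G] [TopologicalSpace G] [IsTopologicalGroup G]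
    (O : Subgroup G) [O.Normal] (hO : IsOpen (O : Set G)) {g : G}
    (hg : g ∈ (commutator G).topologicalClosure) : (g : G ⧸ O) ∈ commutator (G ⧸ O) := by
  have h1 : O ≤ (commutator (G ⧸ O)).comap (QuotientGroup.mk' O) := by
    intro o ho
    rw [Subgroup.mem_comap, QuotientGroup.mk'_apply, (QuotientGroup.eq_one_iff o).2 ho]
    exact Subgroup.one_mem _
  have h2 : IsOpen (((commutator (G ⧸ O)).comap (QuotientGroup.mk' O) : Subgroup G) : Set G) :=
    Subgroup.isOpen_mono h1 hO
  have h3 := Subgroup.isClosed_of_isOpen _ h2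
  have h4 : commutator G ≤ (commutator (G ⧸ O)).comap (QuotientGroup.mk' O) := by
    rw [← Subgroup.map_le_iff_le_comap, commutator_def, Subgroup.map_commutator,
      Subgroup.map_top_of_surjective _ (QuotientGroup.mk'_surjective O)]
    exact le_rfl
  exact Subgroup.topologicalClosure_minimal _ h4 h3 hg

theorem continuous_prod {G : Type*} [Group G] [TopologicalSpace G] [IsTopologicalGroup G]
    {X : Type*} [TopologicalSpace X] {d : ℕ} (f : Fin d → X → G) (hf : ∀ i, Continuous (f i)) :
    Continuous fun y => (List.ofFn fun i => f i y).prod := by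
  simp_rw [List.ofFn_eq_map]
  exact continuous_list_prod _ fun i _ => hf i

theorem stmtWidth : StmtWidth.{u} := by
  intro p _ G _ _ _ _ _ _ hpp d x hx g hg
  have hcont : Continuous fun y : Fin d → G => (List.ofFn fun i => cm (x i) (y i)).prod := by
    refine continuous_prod (fun i (y : Fin d → G) => cm (x i) (y i)) fun i => ?_
    unfold cm
    fun_prop
  have hcl : IsClosed (Set.range fun y : Fin d → G => (List.ofFn fun i => cm (x i) (y i)).prod) :=
    (isCompact_range hcont).isClosed
  have hmem : g ∈ closure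
      (Set.range fun y : Fin d → G => (List.ofFn fun i => cm (x i) (y i)).prod) := by
    rw [mem_closure_iff]
    intro V hV hgV
    have hV' : IsOpen ((fun h : G => g * h) ⁻¹' V) := hV.preimage (continuous_const_mul g)
    obtain ⟨O, hO⟩ := ProfiniteGrp.exist_openNormalSubgroup_sub_open_nhds_of_one hV'
      (by simpa using hgV)
    have hOn : O.toSubgroup.Normal := O.isNormal'
    obtain ⟨n, hn⟩ := hpp O.toSubgroup O.isNormal' O.isOpen'
    have hcard : Nat.card (G ⧸ O.toSubgroup) = p ^ n := hn
    have hfin : Finite (G ⧸ O.toSubgroup) := Nat.finite_of_card_ne_zero (by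
      rw [hcard]; exact pow_ne_zero _ (Fact.out : p.Prime).ne_zero)
    have hnil : Group.IsNilpotent (G ⧸ O.toSubgroup) := (IsPGroup.of_card hcard).isNilpotent
    obtain ⟨m, hm⟩ := Subgroup.nilpotent_iff_lowerCentralSeries.1 hnil
    have hm' : (⊤ : Subgroup (G ⧸ O.toSubgroup)).lowerCentralSeries (m + 1) = ⊥ := by
      rw [← le_bot_iff, ← hm]
      exact Subgroup.lowerCentralSeries_antitone _ (Nat.le_succ m)
    obtain ⟨y, hy⟩ := width_nilp m _ hm' _ (closure_quot hx O.toSubgroup O.isOpen') _
      (commutator_quot O.toSubgroup O.isOpen' hg)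
    choose z hz using fun i => QuotientGroup.mk_surjective (y i)
    have h1 : (g : G ⧸ O.toSubgroup) = ((List.ofFn fun i => cm (x i) (z i)).prod : G) := by
      rw [hy]
      have h2 : (((List.ofFn fun i => cm (x i) (z i)).prod : G) : G ⧸ O.toSubgroup) =
          QuotientGroup.mk' O.toSubgroup (List.ofFn fun i => cm (x i) (z i)).prod := rfl
      rw [h2, map_list_prod, List.map_ofFn]
      congr 2
      funext i
      rw [← hz i]
      rfl
    refine ⟨(List.ofFn fun i => cm (x i) (z i)).prod, ?_, ⟨z, rfl⟩⟩
    have h2 : g⁻¹ * (List.ofFn fun i => cm (x i) (z i)).prod ∈ O.toSubgroup :=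
      QuotientGroup.eq.1 h1
    have h3 := hO h2
    simpa using h3
  rw [hcl.closure_eq] at hmem
  obtain ⟨y, hy⟩ := hmem
  exact ⟨y, hy.symm⟩

end Pool.Agent.Helper11.ProP2
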